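import Mathlib
import Pool.Agent.H79.Eul.Main

/-!
# The boundary points over the identity are density points of the hyperbolic maps
-/

set_option autoImplicit false

namespace Pool.Agent.H79.Old.IdentityDensity

open Polynomial Filter Topology MeasureTheory

/-- The rational map `P/Q` is hyperbolic, in the words of the frozen statement `S05373`: every
critical point is attracted to an attracting periodic cycle. -/
def IsHyperbolic (P Q : Polynomial ℂ) : Prop :=
  ∃ f : OnePoint ℂ → OnePoint ℂ, Continuous f ∧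
    (∀ z : ℂ, Q.eval z ≠ 0 → f (OnePoint.some z) = OnePoint.some (P.eval z / Q.eval z)) ∧
    ∀ c : OnePoint ℂ, (¬ ∃ U ∈ nhds c, Set.InjOn f U) →
      ∃ z : OnePoint ℂ, ∃ n : ℕ, 0 < n ∧ f^[n] z = z ∧
        (∃ U ∈ nhds z, ∀ w ∈ U,
          Filter.Tendsto (fun k : ℕ => f^[n * k] w) Filter.atTop (nhds z)) ∧
        Filter.Tendsto (fun k : ℕ => f^[n * k] c) Filter.atTop (nhds z)

/-- The polynomial of degree at most `d` with coefficients `v`. -/
noncomputable def poly {d : ℕ} (v : Fin (d + 1) → ℂ) : Polynomial ℂ := ∑ i, C (v i) * X ^ (i : ℕ)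

/-- The coefficients of index at most `d` of a polynomial. -/
noncomputable def coeffs (d : ℕ) (P : Polynomial ℂ) : Fin (d + 1) → ℂ := fun i => P.coeff i

/-- `P/Q` is a hyperbolic rational map of degree exactly `d`. -/
def IsHypDeg (d : ℕ) (P Q : Polynomial ℂ) : Prop :=
  IsCoprime P Q ∧ max P.natDegree Q.natDegree = d ∧ IsHyperbolic P Q

/-- The pairs `(P, Q)` of polynomials of degree at most `d`, given by their coefficients, such that
`P/Q` is not a hyperbolic rational map of degree `d`. -/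
def Bad (d : ℕ) : Set ((Fin (d + 1) → ℂ) × (Fin (d + 1) → ℂ)) :=
  {v | ¬ IsHypDeg d (poly v.1) (poly v.2)}

/-- Let `d ≥ 2` and let `H ≠ 0` be a polynomial of degree less than `d`, so that `(X H, H)` is a
degenerate pair over the identity map.
(1) For Lebesgue almost every direction `v` in the space of pairs there is `ε > 0` such that
`(X H, H) + h v'` is a hyperbolic map of degree `d` for all `‖v' - v‖ < ε` and `0 < h < ε`.
(2) The proportion of the ball of radius `r` around `(X H, H)` occupied by the pairs which are not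
hyperbolic maps of degree `d` tends to `0` as `r → 0`. -/
theorem result (d : ℕ) (hd : 2 ≤ d) (H : Polynomial ℂ) (hH : H ≠ 0) (hdeg : H.natDegree < d) :
    (∀ᵐ v : (Fin (d + 1) → ℂ) × (Fin (d + 1) → ℂ), ∃ ε : ℝ, 0 < ε ∧
      ∀ v' : (Fin (d + 1) → ℂ) × (Fin (d + 1) → ℂ), ‖v' - v‖ < ε → ∀ h : ℝ, 0 < h → h < ε →
        IsHypDeg d (X * H + C (h : ℂ) * poly v'.1) (H + C (h : ℂ) * poly v'.2)) ∧
    Tendsto (fun r : ℝ =>
        volume (Metric.ball (coeffs d (X * H), coeffs d H) r ∩ Bad d) /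
          volume (Metric.ball (coeffs d (X * H), coeffs d H) r))
      (𝓝[>] 0) (𝓝 0) := by
  have hQ : H.natDegree + 1 ≤ d := hdeg
  constructor
  · have h1 := Pool.Agent.H79.Eul.good_null hd hH hQ
    rw [ae_iff]
    refine measure_mono_null ?_ h1
    intro v hv
    rw [Set.mem_compl_iff]
    intro hgood
    apply hv
    have h2 : ∀ᶠ τ in 𝓝 v ×ˢ 𝓝[>] (0 : ℝ), Pool.Agent.H79.Eul.HypAt H τ.1 τ.2 := hgood
    obtain ⟨pa, hpa, pb, hpb, h⟩ := Filter.eventually_prod_iff.1 h2
    obtain ⟨ε1, hε1, h3⟩ := Metric.eventually_nhds_iff_ball.1 hpa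
    obtain ⟨ε2, hε2, h4⟩ := mem_nhdsGT_iff_exists_Ioo_subset.1 hpb
    refine ⟨min ε1 ε2, lt_min hε1 hε2, fun v' hv' t ht0 ht => ?_⟩
    have h5 := h (h3 v' (by
      rw [Metric.mem_ball, dist_eq_norm]
      exact lt_of_lt_of_le hv' (min_le_left _ _)))
      (h4 ⟨ht0, lt_of_lt_of_le ht (min_le_right _ _)⟩)
    obtain ⟨h6, h7, h8⟩ := h5
    refine ⟨h6, h7, ?_⟩
    exact (Pool.Agent.H32.BT.hyp_iff h6 (by rw [h7]; omega)).2 h8
  · refine (Pool.Agent.H79.Eul.density_one hd hH hQ).congr' ?_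
    filter_upwards with r
    congr 2
    apply congrArg₂ _ rfl
    ext v
    show (¬ _) ↔ (¬ _)
    rw [not_iff_not]
    constructor
    · rintro ⟨h1, h2, h3⟩
      exact ⟨h1, h2, (Pool.Agent.H32.BT.hyp_iff h1 (by rw [h2]; omega)).2 h3⟩
    · rintro ⟨h1, h2, h3⟩
      have h2' : max (poly v.1).natDegree (poly v.2).natDegree = d := h2
      exact ⟨h1, h2, (Pool.Agent.H32.BT.hyp_iff h1 (by rw [h2']; omega)).1 h3⟩

end Pool.Agent.H79.Old.IdentityDensity
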