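import Mathlib
import Pool.Agent.H79.Par.ParMain
import Pool.Agent.H32.RB.Main

/-!
# Rational maps without critical points in the Julia set are density points of the hyperbolic maps
-/

set_option autoImplicit false

namespace Pool.Agent.Results.MP_8f2e1c_an.ParabolicDensity

open Polynomial Filter Topology MeasureTheory

/-- `f` is the rational map `P/Q` on the sphere. -/
def IsMap (f : OnePoint ℂ → OnePoint ℂ) (P Q : Polynomial ℂ) : Prop :=
  Continuous f ∧
    ∀ z : ℂ, Q.eval z ≠ 0 → f (OnePoint.some z) = OnePoint.some (P.eval z / Q.eval z)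

/-- `c` is a critical point of `f`. -/
def IsCritical (f : OnePoint ℂ → OnePoint ℂ) (c : OnePoint ℂ) : Prop :=
  ¬ ∃ U ∈ nhds c, Set.InjOn f U

/-- The orbit of `c` is attracted to an attracting cycle (words of the frozen statement
`S05373`). -/
def ToAttracting (f : OnePoint ℂ → OnePoint ℂ) (c : OnePoint ℂ) : Prop :=
  ∃ z : OnePoint ℂ, ∃ n : ℕ, 0 < n ∧ f^[n] z = z ∧
    (∃ U ∈ nhds z, ∀ w ∈ U,
      Filter.Tendsto (fun k : ℕ => f^[n * k] w) Filter.atTop (nhds z)) ∧
    Filter.Tendsto (fun k : ℕ => f^[n * k] c) Filter.atTop (nhds z)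

/-- The rational map `P/Q` is hyperbolic, in the words of the frozen statement `S05373`: every
critical point is attracted to an attracting periodic cycle. -/
def IsHyperbolic (P Q : Polynomial ℂ) : Prop :=
  ∃ f : OnePoint ℂ → OnePoint ℂ, IsMap f P Q ∧ ∀ c : OnePoint ℂ, IsCritical f c → ToAttracting f c

/-- The inverse of the chart `1 / z` at infinity. -/
noncomputable def atInfinity (w : ℂ) : OnePoint ℂ :=
  if w = 0 then OnePoint.infty else OnePoint.some w⁻¹

/-- `z` is a fixed point of `F` at which, in the chart, `F` is complex differentiable with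
derivative `a`. -/
def FixedWithMultiplier (F : OnePoint ℂ → OnePoint ℂ) (z : OnePoint ℂ) (a : ℂ) : Prop :=
  (∃ (w : ℂ) (G : ℂ → ℂ), z = OnePoint.some w ∧ G w = w ∧ HasDerivAt G a w ∧
    ∀ᶠ u : ℂ in 𝓝 w, F (OnePoint.some u) = OnePoint.some (G u)) ∨
  (∃ G : ℂ → ℂ, z = OnePoint.infty ∧ G 0 = 0 ∧ HasDerivAt G a 0 ∧
    ∀ᶠ u : ℂ in 𝓝 (0 : ℂ), F (atInfinity u) = atInfinity (G u))

/-- The orbit of `c` is attracted to a parabolic cycle and does not land on it: `z` is a periodic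
point with `(f^n)'(z) = 1`, and `f^(n k)(c)` tends to `z` without reaching it. -/
def ToParabolic (f : OnePoint ℂ → OnePoint ℂ) (c : OnePoint ℂ) : Prop :=
  ∃ z : OnePoint ℂ, ∃ n : ℕ, 0 < n ∧ FixedWithMultiplier f^[n] z 1 ∧
    Filter.Tendsto (fun k : ℕ => f^[n * k] c) Filter.atTop (nhds z) ∧ ∀ k : ℕ, f^[n * k] c ≠ z

/-- The polynomial of degree at most `d` with coefficients `v`. -/
noncomputable def poly {d : ℕ} (v : Fin (d + 1) → ℂ) : Polynomial ℂ := ∑ i, C (v i) * X ^ (i : ℕ)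

/-- The coefficients of index at most `d` of a polynomial. -/
noncomputable def coeffs (d : ℕ) (P : Polynomial ℂ) : Fin (d + 1) → ℂ := fun i => P.coeff i

/-- `P/Q` is a hyperbolic rational map of degree exactly `d`. -/
def IsHypDeg (d : ℕ) (P Q : Polynomial ℂ) : Prop :=
  IsCoprime P Q ∧ max P.natDegree Q.natDegree = d ∧ IsHyperbolic P Q

/-- The pairs `(P, Q)` of polynomials of degree at most `d`, given by their coefficients, such that
`P/Q` is not a hyperbolic rational map of degree `d`. -/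
def Bad (d : ℕ) : Set ((Fin (d + 1) → ℂ) × (Fin (d + 1) → ℂ)) :=
  {v | ¬ IsHypDeg d (poly v.1) (poly v.2)}

theorem hyp_iff' {d : ℕ} (hd : 2 ≤ d) (v : Pool.Agent.H79.Eul.E d) :
    IsHypDeg d (poly v.1) (poly v.2) ↔ Pool.Agent.H79.Par.HypDeg v := by
  constructor
  · rintro ⟨h1, h2, h3⟩
    have h2' : max (poly v.1).natDegree (poly v.2).natDegree = d := h2
    exact ⟨h1, h2, (Pool.Agent.H32.BT.hyp_iff h1 (by rw [h2']; omega)).1
      (by obtain ⟨f, ⟨hf1, hf2⟩, hf3⟩ := h3; exact ⟨f, hf1, hf2, hf3⟩)⟩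
  · rintro ⟨h1, h2, h3⟩
    obtain ⟨f, hf1, hf2, hf3⟩ := (Pool.Agent.H32.BT.hyp_iff h1 (by rw [h2]; omega)).2 h3
    exact ⟨h1, h2, f, ⟨hf1, hf2⟩, hf3⟩

/-- Let `d ≥ 2` and let `f = A/B` be a rational map of degree `d` such that every critical point of
`f` is attracted to an attracting cycle or to a parabolic cycle on which it does not land
(equivalently: the Julia set of `f` contains no critical points).
(1) For Lebesgue almost every direction `v` in the space of pairs there is `ε > 0` such that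
`(A, B) + h v'` is a hyperbolic map of degree `d` for all `‖v' - v‖ < ε` and `0 < h < ε`.
(2) The proportion of the ball of radius `r` around `(A, B)` occupied by the pairs which are not
hyperbolic maps of degree `d` tends to `0` as `r → 0`. -/
theorem result (d : ℕ) (hd : 2 ≤ d) (A B : Polynomial ℂ) (hcop : IsCoprime A B)
    (hdeg : max A.natDegree B.natDegree = d) (f : OnePoint ℂ → OnePoint ℂ) (hf : IsMap f A B)
    (hcrit : ∀ c : OnePoint ℂ, IsCritical f c → ToAttracting f c ∨ ToParabolic f c) :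
    (∀ᵐ v : (Fin (d + 1) → ℂ) × (Fin (d + 1) → ℂ), ∃ ε : ℝ, 0 < ε ∧
      ∀ v' : (Fin (d + 1) → ℂ) × (Fin (d + 1) → ℂ), ‖v' - v‖ < ε → ∀ h : ℝ, 0 < h → h < ε →
        IsHypDeg d (A + C (h : ℂ) * poly v'.1) (B + C (h : ℂ) * poly v'.2)) ∧
    Tendsto (fun r : ℝ =>
        volume (Metric.ball (coeffs d A, coeffs d B) r ∩ Bad d) /
          volume (Metric.ball (coeffs d A, coeffs d B) r))
      (𝓝[>] 0) (𝓝 0) := by
  have hAd : A.natDegree ≤ d := hdeg ▸ le_max_left _ _
  have hBd : B.natDegree ≤ d := hdeg ▸ le_max_right _ _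
  set v0 : Pool.Agent.H79.Eul.E d := (coeffs d A, coeffs d B) with hv0
  have e1 : Pool.Agent.H79.Eul.pol v0.1 = A := Pool.Agent.H79.Eul.pol_cf hAd
  have e2 : Pool.Agent.H79.Eul.pol v0.2 = B := Pool.Agent.H79.Eul.pol_cf hBd
  have hB0 : B ≠ 0 := Pool.Agent.H32.BT.den_ne_zero hcop (by omega)
  have hfr : f = Pool.Agent.H79.Par.Rf v0 := by
    unfold Pool.Agent.H79.Par.Rf
    rw [e1, e2]
    exact Pool.Agent.H32.RB.ext_eq hcop hB0 hf
  have key := Pool.Agent.H79.Par.par_ae hd (v0 := v0) (by rw [e1, e2]; exact hcop)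
    (by rw [e1, e2]; exact hdeg) (fun c hc => by
      rw [← hfr] at hc ⊢
      rcases hcrit c hc with ⟨z, n, h1, h2, h3, h4⟩ | ⟨z, n, h⟩
      · exact ⟨z, n, Or.inl ⟨⟨h1, h2, h3⟩, h4⟩⟩
      · exact ⟨z, n, Or.inr h⟩)
  constructor
  · rw [ae_iff]
    refine measure_mono_null ?_ key
    intro v hv
    rw [Set.mem_compl_iff]
    intro hgood
    apply hv
    have h2 : ∀ᶠ τ in 𝓝 v ×ˢ 𝓝[>] (0 : ℝ), Pool.Agent.H79.Par.HypDeg
      (Pool.Agent.H79.Par.pv v0 τ) := hgood
    obtain ⟨pa, hpa, pb, hpb, h⟩ := Filter.eventually_prod_iff.1 h2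
    obtain ⟨ε1, hε1, h3⟩ := Metric.eventually_nhds_iff_ball.1 hpa
    obtain ⟨ε2, hε2, h4⟩ := mem_nhdsGT_iff_exists_Ioo_subset.1 hpb
    refine ⟨min ε1 ε2, lt_min hε1 hε2, fun v' hv' t ht0 ht => ?_⟩
    have h5 := h (h3 v' (by
      rw [Metric.mem_ball, dist_eq_norm]
      exact lt_of_lt_of_le hv' (min_le_left _ _)))
      (h4 ⟨ht0, lt_of_lt_of_le ht (min_le_right _ _)⟩)
    have h6 := (hyp_iff' hd _).2 h5
    have e3 : poly (Pool.Agent.H79.Par.pv v0 (v', t)).1 = A + C (t : ℂ) * poly v'.1 := by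
      have : (Pool.Agent.H79.Par.pv v0 (v', t)).1 = v0.1 + (t : ℂ) • v'.1 := by
        funext i
        show v0.1 i + t • v'.1 i = v0.1 i + (t : ℂ) * v'.1 i
        rw [Complex.real_smul]
      rw [this]
      have h7 := Pool.Agent.H79.Eul.pol_add v0.1 ((t : ℂ) • v'.1)
      rw [Pool.Agent.H79.Eul.pol_smul, e1] at h7
      exact h7
    have e4 : poly (Pool.Agent.H79.Par.pv v0 (v', t)).2 = B + C (t : ℂ) * poly v'.2 := by
      have : (Pool.Agent.H79.Par.pv v0 (v', t)).2 = v0.2 + (t : ℂ) • v'.2 := by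
        funext i
        show v0.2 i + t • v'.2 i = v0.2 i + (t : ℂ) * v'.2 i
        rw [Complex.real_smul]
      rw [this]
      have h7 := Pool.Agent.H79.Eul.pol_add v0.2 ((t : ℂ) • v'.2)
      rw [Pool.Agent.H79.Eul.pol_smul, e2] at h7
      exact h7
    rwa [e3, e4] at h6
  · refine (Pool.Agent.H79.Par.prop_of_ae key).congr' ?_
    filter_upwards with r
    congr 2
    apply congrArg₂ _ rfl
    ext v
    show (¬ _) ↔ (¬ _)
    rw [not_iff_not]
    exact (hyp_iff' hd v).symm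

end Pool.Agent.Results.MP_8f2e1c_an.ParabolicDensity
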